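import Pool.Agent.L7h48.RT.Stm

/-!
# Project RT, part PRU: pruning a rainbow tree
-/

set_option autoImplicit false

namespace Pool.Agent.L7h77.RT

open Pool.Agent.L7h48.RT
open scoped Classical

/-- remove one vertex -/
theorem step {n : ℕ} (G : SimpleGraph (Fin n)) (V : Set (Fin n)) (h : (G.induce V).IsTree)
    (h2 : 2 ≤ V.ncard) : ∃ V' : Set (Fin n), (G.induce V').IsTree ∧ V'.ncard + 1 = V.ncard := by
  have hnt : Nontrivial V := by
    rw [Set.nontrivial_coe_sort]
    rw [← Set.one_lt_ncard_iff_nontrivial]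
    omega
  obtain ⟨v, hv⟩ := h.connected.exists_connected_induce_compl_singleton_of_finite_nontrivial
  refine ⟨V \ {v.1}, ⟨?_, ?_⟩, ?_⟩
  · have hmem : ∀ x : ↥({v}ᶜ : Set V), (x.1.1 : Fin n) ∈ V \ {v.1} := by
      intro x
      refine ⟨x.1.2, fun h => x.2 ?_⟩
      rw [Set.mem_singleton_iff] at h ⊢
      exact Subtype.ext h
    let f : ((G.induce V).induce {v}ᶜ) →g G.induce (V \ {v.1}) :=
      { toFun := fun x => ⟨x.1.1, hmem x⟩
        map_rel' := fun {a b} hab => hab }
    refine hv.map f ?_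
    rintro ⟨y, hy⟩
    refine ⟨⟨⟨y, hy.1⟩, ?_⟩, rfl⟩
    intro h
    exact hy.2 (by rw [Set.mem_singleton_iff] at h ⊢; exact congrArg Subtype.val h)
  · exact h.isAcyclic.comap (G.induceHomOfLE (Set.sdiff_subset : V \ {v.1} ⊆ V)).toHom
      (G.induceHomOfLE (Set.sdiff_subset : V \ {v.1} ⊆ V)).injective
  · exact Set.ncard_sdiff_singleton_add_one v.2 (Set.toFinite V)

/-- remove `k` vertices -/
theorem steps {n : ℕ} (G : SimpleGraph (Fin n)) (k : ℕ) : ∀ (V : Set (Fin n)),
    (G.induce V).IsTree → k + 1 ≤ V.ncard →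
    ∃ V' : Set (Fin n), (G.induce V').IsTree ∧ V'.ncard + k = V.ncard := by
  induction k with
  | zero => exact fun V h _ => ⟨V, h, rfl⟩
  | succ k ih =>
    intro V h hk
    obtain ⟨V', h1, h2⟩ := step G V h (by omega)
    obtain ⟨V'', h3, h4⟩ := ih V' h1 (by omega)
    exact ⟨V'', h3, by omega⟩

/-- a rainbow graph has at most `c` edges -/
theorem rb_card {n c : ℕ} (x : Col n c) (H : SimpleGraph (Fin n)) (h : Rainbow x H) :
    H.edgeSet.ncard ≤ c := by
  have h1 : ∀ e : H.edgeSet, (x ⟨e.1, H.not_isDiag_of_mem_edgeSet e.2⟩) ≠ none :=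
    fun e => h.1 ⟨e.1, _⟩ e.2
  have h2 : Function.Injective fun e : H.edgeSet =>
      (x ⟨e.1, H.not_isDiag_of_mem_edgeSet e.2⟩).get (Option.isSome_iff_ne_none.2 (h1 e)) := by
    intro e f hef
    have hef' : (x ⟨e.1, H.not_isDiag_of_mem_edgeSet e.2⟩).get
        (Option.isSome_iff_ne_none.2 (h1 e)) = (x ⟨f.1, H.not_isDiag_of_mem_edgeSet f.2⟩).get
        (Option.isSome_iff_ne_none.2 (h1 f)) := hef
    have h3 := h.2 ⟨e.1, H.not_isDiag_of_mem_edgeSet e.2⟩ ⟨f.1, H.not_isDiag_of_mem_edgeSet f.2⟩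
      e.2 f.2 (by rw [← Option.some_get (Option.isSome_iff_ne_none.2 (h1 e)), hef',
        Option.some_get])
    exact Subtype.ext (congrArg (fun q : Pr n => q.1) h3)
  have h3 := Nat.card_le_card_of_injective _ h2
  rw [Nat.card_fin, Nat.card_coe_set_eq] at h3
  exact h3

/-- the edges of a tree -/
theorem tree_edges {n : ℕ} (G : SimpleGraph (Fin n)) (V : Set (Fin n)) (h : (G.induce V).IsTree) :
    (G.induce V).spanningCoe.edgeSet.ncard + 1 = V.ncard := by
  have h1 := h.card_edgeFinset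
  have h2 : (G.induce V).spanningCoe.edgeSet =
      (Function.Embedding.subtype (· ∈ V)).sym2Map '' (G.induce V).edgeSet :=
    SimpleGraph.edgeSet_map _ _
  rw [h2, Set.ncard_image_of_injective _ (Function.Embedding.injective _),
    ← Nat.card_coe_set_eq V, Nat.card_eq_fintype_card, ← h1, Set.ncard_eq_toFinset_card',
    SimpleGraph.edgeFinset]

theorem s_PRU : S_PRU := by
  intro n c k l x hk hl
  have hF0 : 0 ≤ F k l x := by
    apply Real.sSup_nonneg
    rintro _ ⟨H, _, rfl⟩
    exact Finset.sum_nonneg fun C _ => le_max_right _ _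
  by_cases hT : T x ≤ k + 1
  · have : (T x : ℝ) ≤ k + 1 := by exact_mod_cast hT
    linarith
  push Not at hT
  set S : Set ℕ := {k : ℕ | ∃ K : (⊤ : SimpleGraph (Fin n)).Subgraph, K.coe.IsTree ∧
    Rainbow x K.spanningCoe ∧ K.verts.ncard = k} with hS
  have hTS : T x = sSup S := rfl
  have hbdd : BddAbove S := by
    refine ⟨n, ?_⟩
    rintro _ ⟨K, _, _, rfl⟩
    have := Set.ncard_le_card K.verts
    simpa using this
  have hne : S.Nonempty := by
    rw [Set.nonempty_iff_ne_empty]
    intro h0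
    rw [hTS, h0, csSup_empty] at hT
    simp at hT
  obtain ⟨K, hK1, hK2, hK3⟩ := Nat.sSup_mem hne hbdd
  rw [← hTS] at hK3
  have hind : K.coe = K.spanningCoe.induce K.verts := by
    ext a b
    rfl
  rw [hind] at hK1
  set G : SimpleGraph (Fin n) := K.spanningCoe with hG
  obtain ⟨V', hV1, hV2⟩ := steps G k K.verts hK1 (by omega)
  have hmono : ∀ H : SimpleGraph (Fin n), H ≤ G → Rainbow x H := by
    intro H hH
    exact ⟨fun e he => hK2.1 e (SimpleGraph.edgeSet_subset_edgeSet.2 hH he),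
      fun e f he hf h => hK2.2 e f (SimpleGraph.edgeSet_subset_edgeSet.2 hH he)
        (SimpleGraph.edgeSet_subset_edgeSet.2 hH hf) h⟩
  have hc1 := rb_card x _ (hmono _ (G.spanningCoe_induce_le K.verts))
  have hc2 := tree_edges G K.verts hK1
  have hc3 := tree_edges G V' hV1
  set H : SimpleGraph (Fin n) := (G.induce V').spanningCoe with hH
  have hHR : Rainbow x H := hmono _ (G.spanningCoe_induce_le V')
  have hHk : H.edgeSet.ncard + k ≤ c := by omega
  have hFH : Phi l H ≤ F k l x := le_csSup (Set.toFinite _).bddAbove ⟨H, ⟨hHR, hHk⟩, rfl⟩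
  -- a large component
  obtain ⟨v0, hv0⟩ : V'.Nonempty := by
    rw [Set.nonempty_iff_ne_empty]
    intro h0
    rw [h0, Set.ncard_empty] at hV2
    omega
  have hsub : V' ⊆ (H.connectedComponentMk v0).supp := by
    intro v hv
    rw [SimpleGraph.ConnectedComponent.mem_supp_iff, SimpleGraph.ConnectedComponent.eq]
    exact (hV1.connected.preconnected ⟨v, hv⟩ ⟨v0, hv0⟩).map
      (SimpleGraph.Embedding.map (Function.Embedding.subtype (· ∈ V')) (G.induce V')).toHom
  have hle : V'.ncard ≤ (H.connectedComponentMk v0).supp.ncard :=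
    Set.ncard_le_ncard hsub (Set.toFinite _)
  have hPhi : ((H.connectedComponentMk v0).supp.ncard : ℝ) - l ≤ Phi l H := by
    refine (le_max_left _ (0 : ℝ)).trans ?_
    exact Finset.single_le_sum
      (f := fun C : H.ConnectedComponent => max ((C.supp.ncard : ℝ) - l) 0)
      (fun C _ => le_max_right _ _)
      (Finset.mem_image_of_mem _ (Finset.mem_univ v0))
  have h1 : (V'.ncard : ℝ) ≤ ((H.connectedComponentMk v0).supp.ncard : ℝ) := by
    exact_mod_cast hle
  have h2 : (T x : ℝ) = V'.ncard + k := by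
    rw [← hK3, ← hV2]
    push_cast
    ring
  linarith

end Pool.Agent.L7h77.RT
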